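import Pool.Agent.LibKlVar.KV_W

set_option autoImplicit false

namespace Pool.Agent.Old6ea630.BothSigns

open Finset

/-- The Kloosterman sum `S(a,1;p)` (a real number): the sum over `1 ≤ x < p` of
`cos(2π (a x + x⁻¹) / p)`, where `x⁻¹` is the inverse modulo `p`. -/
noncomputable def S (a : ℤ) (p : ℕ) : ℝ :=
  ∑ x ∈ Finset.Ico 1 p, Real.cos (2 * Real.pi *
    ((((a : ZMod p) * (x : ZMod p) + (x : ZMod p)⁻¹).val : ℕ) : ℝ) / (p : ℝ))

/-- The Kloosterman angle `θ_p(a) ∈ [0, π]`: `S(a,1;p) = 2 √p cos θ_p(a)`. -/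
noncomputable def theta (a : ℤ) (p : ℕ) : ℝ := Real.arccos (S a p / (2 * Real.sqrt p))

theorem result (ε : ℝ) (hε : 0 < ε) :
    ∃ c : ℝ, 0 < c ∧ ∃ X₀ : ℕ, ∀ X : ℕ, X₀ ≤ X → ∀ A B : ℤ, -(X : ℤ) ≤ A → A ≤ B → B ≤ X →
      ∀ P : Finset ℕ, (∀ p ∈ P, p.Prime ∧ X < p ∧ p ≤ 2 * X) →
      (X : ℝ) ^ (3 / 2 + ε) ≤ (B - A) * #P →
      (1 / 4 - ε) * ((B : ℝ) - A) ≤ #((Ioc A B).filter (fun a =>
        c * #P ≤ #(P.filter (fun p : ℕ => c ≤ Real.cos (theta a p))) ∧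
        c * #P ≤ #(P.filter (fun p : ℕ => Real.cos (theta a p) ≤ -c)))) := by
  set t : ℝ := min (ε / 2) (1 / 8) with htdef
  have ht : 0 < t := lt_min (by positivity) (by norm_num)
  have ht8 : t ≤ 1 / 8 := min_le_right _ _
  have hte : 2 * t ≤ ε := by
    have := min_le_left (ε / 2) (1 / 8 : ℝ)
    linarith
  obtain ⟨X₀, hX₀⟩ := Pool.KV.both_signs_eps
    (fun ε hε => Pool.KV.large_sieve' Pool.KV.weilBd ε hε) Pool.KV.kl_im Pool.KV.kl_le'
    (Pool.KV.second_moment_interval Pool.KV.weilBd) t ht ht8 ε hε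
  refine ⟨t / 32, by positivity, X₀, fun X hX A B hA hAB hB P hP hcard => ?_⟩
  have h := hX₀ X hX A B hA hAB hB P hP hcard
  have hAB' : (0 : ℝ) ≤ (B : ℝ) - A := by
    have : (A : ℝ) ≤ B := by exact_mod_cast hAB
    linarith
  have h4 : (1 / 4 - ε) * ((B : ℝ) - A) ≤ (1 / 4 - 2 * t) * ((B : ℝ) - A) :=
    mul_le_mul_of_nonneg_right (by linarith) hAB'
  refine h4.trans (h.trans ?_)
  rw [Nat.cast_le]
  refine card_le_card fun a ha => ?_
  rw [mem_filter] at ha ⊢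
  have hPnn : (0 : ℝ) ≤ #P := Nat.cast_nonneg _
  have ht2 : t / 32 * (#P : ℝ) ≤ t / 16 * #P := by
    apply mul_le_mul_of_nonneg_right _ hPnn
    linarith
  have hcos : ∀ p ∈ P, Real.cos (theta a p) = (Pool.KV.kl a p).re / Real.sqrt p / 2 := by
    intro p hp
    have hpp := (hP p hp).1
    rw [Pool.KV.kl_re a p hpp]
    have := Pool.KV.cos_arccos_SR a p hpp
    have h5 : Real.cos (theta a p) = Pool.KV.SR a p / (2 * Real.sqrt p) := this
    rw [h5]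
    field_simp
  refine ⟨ha.1, ?_, ?_⟩
  · refine ht2.trans (ha.2.1.trans ?_)
    rw [Nat.cast_le]
    refine card_le_card fun p hp => ?_
    rw [mem_filter] at hp ⊢
    refine ⟨hp.1, ?_⟩
    rw [hcos p hp.1]
    linarith [hp.2]
  · refine ht2.trans (ha.2.2.trans ?_)
    rw [Nat.cast_le]
    refine card_le_card fun p hp => ?_
    rw [mem_filter] at hp ⊢
    refine ⟨hp.1, ?_⟩
    rw [hcos p hp.1]
    linarith [hp.2]

end Pool.Agent.Old6ea630.BothSigns
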