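import Pool.Agent.LibKloosterman.Transfer
import Pool.Agent.LibVinogradov.Pairs3

set_option autoImplicit false

namespace Pool.Agent.Old6ea630.SignChanges1

open Finset Filter Topology

/-- The Kloosterman sum `S(m,n;c)`, `c ≥ 1`: the sum over `0 ≤ x < c` coprime to `c` of
`exp(2 π i (m x + n x⁻¹) / c)`, where `x⁻¹` is the inverse modulo `c`. -/
noncomputable def kloosterman (m n : ℤ) (c : ℕ) : ℂ :=
  ∑ x ∈ (range c).filter (fun x => x.Coprime c),
    Complex.exp (2 * Real.pi * Complex.I *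
      ((((m : ZMod c) * (x : ZMod c) + (n : ZMod c) * (x : ZMod c)⁻¹).val : ℕ) : ℂ) / c)

/-- `S(m,n;c)` is a positive real number. -/
def Pos (m n : ℤ) (c : ℕ) : Prop := ∃ r : ℝ, 0 < r ∧ kloosterman m n c = r

/-- `S(m,n;c)` is a negative real number. -/
def Neg (m n : ℤ) (c : ℕ) : Prop := ∃ r : ℝ, r < 0 ∧ kloosterman m n c = r

lemma kloosterman_eq (a : ℤ) (c : ℕ) [NeZero c] : kloosterman a 1 c = Kloo.F a c 1 := by
  unfold kloosterman Kloo.F Kloo.K
  symm
  refine sum_bij (fun (u : (ZMod c)ˣ) _ => (u : ZMod c).val) ?_ ?_ ?_ ?_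
  · intro u _
    rw [mem_filter, mem_range]
    exact ⟨ZMod.val_lt _, ZMod.val_coe_unit_coprime u⟩
  · intro u _ v _ h
    exact Units.ext (ZMod.val_injective c h)
  · intro x hx
    rw [mem_filter, mem_range] at hx
    refine ⟨ZMod.unitOfCoprime x hx.2, mem_univ _, ?_⟩
    rw [ZMod.coe_unitOfCoprime, ZMod.val_natCast, Nat.mod_eq_of_lt hx.1]
  · intro u _
    have h1 : (((1 : ℕ) : ZMod c))⁻¹ = 1 := by
      apply Kloo.inv_eq_of_mul_eq_one; simp
    rw [h1, one_pow, mul_one]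
    rw [ZMod.natCast_zmod_val, ZMod.inv_coe_unit, Int.cast_one, one_mul]
    rw [ZMod.stdAddChar_apply, ZMod.toCircle_apply]

lemma pos_of_re (a : ℤ) (c : ℕ) [NeZero c] (h : 0 < (Kloo.F a c 1).re) : Pos a 1 c :=
  ⟨_, h, by rw [kloosterman_eq, Kloo.F_real]; simp⟩

lemma neg_of_re (a : ℤ) (c : ℕ) [NeZero c] (h : (Kloo.F a c 1).re < 0) : Neg a 1 c :=
  ⟨_, h, by rw [kloosterman_eq, Kloo.F_real]; simp⟩

/-- Structure of the number `2 t`. -/
lemma struct_B {t : ℕ} (ht : t.Prime) (ht2 : 2 < t) :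
    Squarefree (2 * t) ∧ #(2 * t).primeFactors = 2 := by
  have c1 : Nat.Coprime 2 t := (Nat.coprime_primes Nat.prime_two ht).2 (by omega)
  constructor
  · rw [Nat.squarefree_mul_iff]
    exact ⟨c1, Nat.prime_two.prime.squarefree, ht.prime.squarefree⟩
  · rw [Nat.Coprime.primeFactors_mul c1, Nat.Prime.primeFactors Nat.prime_two,
      Nat.Prime.primeFactors ht]
    have : (({2} ∪ {t} : Finset ℕ)) = {2, t} := by
      ext; simp
    rw [this, card_eq_two]
    exact ⟨2, t, by omega, rfl⟩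

/-- Admissible moduli with lower bound `y` for the prime factors not dividing `2 d`. -/
def Adm (d k y c : ℕ) : Prop :=
  Squarefree c ∧ #c.primeFactors ≤ k ∧ ∀ r : ℕ, r.Prime → r ∣ c → r = 2 ∨ r = d ∨ y < r

lemma adm_mul {d k k' y A B : ℕ} (hA : Adm d k y A) (hB : Adm d k' y B) (h : A.Coprime B) :
    Adm d (k + k') y (A * B) := by
  obtain ⟨h1, h2, h3⟩ := hA
  obtain ⟨h4, h5, h6⟩ := hB
  refine ⟨Nat.squarefree_mul_iff.2 ⟨h, h1, h4⟩, ?_, ?_⟩
  · rw [h.primeFactors_mul]
    exact (card_union_le _ _).trans (by omega)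
  · intro r hr hrd
    rcases hr.dvd_mul.1 hrd with h7 | h7
    · exact h3 r hr h7
    · exact h6 r hr h7

lemma adm_prime {d y p : ℕ} (hp : p.Prime) (h : p = d ∨ y < p) : Adm d 1 y p := by
  refine ⟨hp.prime.squarefree, ?_, ?_⟩
  · rw [Nat.Prime.primeFactors hp]; simp
  · intro r hr hrd
    have := (Nat.prime_dvd_prime_iff_eq hr hp).1 hrd
    rw [this]; right; exact h

lemma adm_mono {d k k' y c : ℕ} (hk : k ≤ k') (h : Adm d k y c) : Adm d k' y c :=
  ⟨h.1, h.2.1.trans hk, h.2.2⟩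

/-- The final property of the moduli. -/
def Good (a : ℤ) (d k c : ℕ) : Prop :=
  Squarefree c ∧ Int.gcd a c ∣ 2 ∧ #c.primeFactors ≤ k ∧
    ∀ r : ℕ, r.Prime → r ∣ c → r = 2 ∨ r = d ∨ c ≤ 64 * d * r ^ 2

lemma good_of_adm {a : ℤ} (ha : a ≠ 0) {d k n c : ℕ} (hda : ¬ (d : ℤ) ∣ a)
    (hn : a.natAbs ≤ n) (hn2 : 2 ≤ n) (h : Adm d k (2 * n ^ 32) c)
    (hc : c ≤ 256 * d * n ^ 64) : Good a d k c := by
  obtain ⟨h1, h2, h3⟩ := h
  refine ⟨h1, ?_, h2, ?_⟩
  · -- gcd
    have hsq : Squarefree (Int.gcd a c) := h1.squarefree_of_dvd (by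
      have := Int.gcd_dvd_right a c
      exact_mod_cast this)
    have hpr : ∀ r : ℕ, r.Prime → r ∣ Int.gcd a c → r = 2 := by
      intro r hr hrd
      have h4 : r ∣ c := hrd.trans (by
        have := Int.gcd_dvd_right a c
        exact_mod_cast this)
      have h5 : (r : ℤ) ∣ a := (Int.natCast_dvd_natCast.2 hrd).trans (Int.gcd_dvd_left a c)
      rcases h3 r hr h4 with h6 | h6 | h6
      · exact h6
      · rw [h6] at h5; exact absurd h5 hda
      · exfalso
        have h7 : r ∣ a.natAbs := Int.natCast_dvd.1 h5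
        have h8 := Nat.le_of_dvd (Int.natAbs_pos.2 ha) h7
        have h9 : n ≤ n ^ 32 := Nat.le_self_pow (by norm_num) n
        omega
    -- a squarefree number whose only prime factor is 2 divides 2
    have h4 : (Int.gcd a c).primeFactors ⊆ ({2} : Finset ℕ) := by
      intro r hr
      rw [Nat.mem_primeFactors] at hr
      rw [mem_singleton]; exact hpr r hr.1 hr.2.1
    rw [← Nat.prod_primeFactors_of_squarefree hsq]
    calc ∏ p ∈ (Int.gcd a c).primeFactors, p ∣ ∏ p ∈ ({2} : Finset ℕ), p :=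
          prod_dvd_prod_of_subset _ _ _ h4
      _ = 2 := by simp
      _ ∣ 2 := dvd_rfl
  · intro r hr hrd
    rcases h3 r hr hrd with h6 | h6 | h6
    · left; exact h6
    · right; left; exact h6
    · right; right
      calc c ≤ 256 * d * n ^ 64 := hc
        _ = 64 * d * (2 * n ^ 32) ^ 2 := by ring
        _ ≤ 64 * d * r ^ 2 := by gcongr

/-- Let `a` be a nonzero integer. There are a prime `d` not dividing `a` and `δ > 0` such that for
all large `X` at least `δ X / (log X)^3` squarefree `c ≤ X` have at most 3 prime factors and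
`S(a,1;c) > 0`, and at least `δ X / (log X)^3` squarefree `c ≤ X` have at most 4 prime factors
and `S(a,1;c) < 0`; moreover `gcd(a,c)` divides 2 and every prime factor `r` of `c` other than `2`
and `d` satisfies `c ≤ 64 d r^2`. -/
theorem result (a : ℤ) (ha : a ≠ 0) : ∃ (d : ℕ) (δ : ℝ), d.Prime ∧ ¬ (d : ℤ) ∣ a ∧ 0 < δ ∧
    ∀ᶠ X : ℝ in atTop,
      δ * X / Real.log X ^ 3 ≤ (({c : ℕ | (c : ℝ) ≤ X ∧ (Good a d 3 c ∧ Pos a 1 c)} : Set ℕ).ncard : ℝ) ∧
      δ * X / Real.log X ^ 3 ≤ (({c : ℕ | (c : ℝ) ≤ X ∧ (Good a d 4 c ∧ Neg a 1 c)} : Set ℕ).ncard : ℝ) := by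
  classical
  -- choice of d
  obtain ⟨d, hd3, hdp, hdm⟩ := Nat.forall_exists_prime_gt_and_modEq (a.natAbs + 3)
    (show (4 : ℕ) ≠ 0 by norm_num) (show Nat.Coprime 3 4 by norm_num)
  have hfact : Fact d.Prime := ⟨hdp⟩
  have hd4 : d % 4 = 3 := hdm
  have hd2 : d ≠ 2 := by omega
  have hda : ¬ (d : ℤ) ∣ a := by
    intro h
    have h1 : d ∣ a.natAbs := Int.natCast_dvd.1 h
    have := Nat.le_of_dvd (Int.natAbs_pos.2 ha) h1
    omega
  have hα : (a : ZMod d) ≠ 0 := by
    intro h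
    exact hda ((ZMod.intCast_zmod_eq_zero_iff_dvd a d).1 h)
  obtain ⟨t, ht⟩ := Kloo.exists_neg_fourth hd4 (by omega) (a : ZMod d) hα
  set b := (t : ZMod d).val with hb
  have hbt : (b : ZMod d) = t := ZMod.natCast_zmod_val _
  have hbd : b.Coprime d := ZMod.val_coe_unit_coprime t
  have h2d : Nat.Coprime 2 d := (Nat.coprime_primes Nat.prime_two hdp).2 (Ne.symm hd2)
  have hb2 : (2 * b).Coprime d := h2d.mul_left hbd
  have hbb : ¬ b ≡ 2 * b [MOD d] := by
    intro h
    have h1 : ((b : ℕ) : ZMod d) = ((2 * b : ℕ) : ZMod d) := (ZMod.natCast_eq_natCast_iff _ _ _).2 h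
    push_cast at h1
    rw [hbt] at h1
    have h2 : (t : ZMod d) = 0 := by linear_combination -h1
    exact t.ne_zero h2
  obtain ⟨cc, hcc, hpairs⟩ := LSieve.pairs_exist3 d b (2 * b) hdp hd2 hbd hb2 hbb
  set C := 256 * d with hC
  -- structure of pairs
  have hstruct : ∀ n : ℕ, d ≤ n → 2 ≤ n → ∀ x : ℕ × ℕ, x.1.Prime ∧ x.2.Prime ∧ 4 * n ^ 32 < x.1 ∧
        x.1 < x.2 ∧ x.2 ≤ 16 * n ^ 32 ∧ x.1 ≡ b [MOD d] ∧ x.2 ≡ 2 * b [MOD d] ∧
        (∃ t : ℕ, t.Prime ∧ 2 * n ^ 32 < t ∧ x.2 = x.1 + 2 * t) →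
      Adm d 1 (2 * n ^ 32) x.1 ∧ Adm d 1 (2 * n ^ 32) x.2 ∧ Adm d 2 (2 * n ^ 32) (x.2 - x.1) ∧
      x.1 + (x.2 - x.1) = x.2 ∧ x.1.Coprime (x.2 - x.1) ∧ d.Coprime x.1 ∧ d.Coprime (x.2 - x.1) ∧
      d.Coprime x.2 ∧ 0 < x.2 - x.1 := by
    rintro n hdn hn ⟨p, q⟩ ⟨hp, hq, hpn, hpq, hqn, -, -, s, hs, hsn, hqe⟩
    simp only at *
    have hn8 : n ≤ n ^ 32 := Nat.le_self_pow (by norm_num) n
    have hB : q - p = 2 * s := by omega
    obtain ⟨hB1, hB2⟩ := struct_B hs (by omega)
    have hBpr : ∀ r : ℕ, r.Prime → r ∣ 2 * s → r = 2 ∨ r = s := by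
      intro r hr hrd
      rcases hr.dvd_mul.1 hrd with h7 | h7
      · left; exact (Nat.prime_dvd_prime_iff_eq hr Nat.prime_two).1 h7
      · right; exact (Nat.prime_dvd_prime_iff_eq hr hs).1 h7
    rw [hB]
    refine ⟨adm_prime hp (Or.inr (by omega)), adm_prime hq (Or.inr (by omega)),
      ⟨hB1, hB2.le, ?_⟩, by omega, ?_, ?_, ?_, ?_, ?_⟩
    · intro r hr hrd
      rcases hBpr r hr hrd with h | h
      · left; exact h
      · right; right; rw [h]; exact hsn
    · rw [hp.coprime_iff_not_dvd]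
      intro h
      rcases hBpr p hp h with h | h
      · omega
      · -- then `q = 3 p`
        have h3 : 3 ∣ q := ⟨p, by omega⟩
        have h4 := (Nat.prime_dvd_prime_iff_eq Nat.prime_three hq).1 h3
        omega
    · exact (Nat.coprime_primes hdp hp).2 (by omega)
    · rw [hdp.coprime_iff_not_dvd]
      intro h
      rcases hBpr d hdp h with h | h <;> omega
    · exact (Nat.coprime_primes hdp hq).2 (by omega)
    · have := hs.pos; positivity
  -- size bounds
  have hsize : ∀ n : ℕ, ∀ u v : ℕ, u ≤ 16 * n ^ 32 → v ≤ 16 * n ^ 32 →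
      d * (u * v) ≤ C * n ^ 64 := by
    intro n u v hu hv
    calc d * (u * v) ≤ d * ((16 * n ^ 32) * (16 * n ^ 32)) :=
          Nat.mul_le_mul_left _ (Nat.mul_le_mul hu hv)
      _ = _ := by rw [hC]; ring
  have hsize1 : ∀ n : ℕ, ∀ u v : ℕ, u ≤ 16 * n ^ 32 → v ≤ 16 * n ^ 32 →
      u * v ≤ C * n ^ 64 := by
    intro n u v hu hv
    refine le_trans ?_ (hsize n u v hu hv)
    exact Nat.le_mul_of_pos_left _ hdp.pos
  have hCpos : 0 < C := by rw [hC]; have := hdp.pos; positivity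
  -- positive values
  have hP : ∀ᶠ n : ℕ in atTop, ∃ S : Finset ℕ, (∀ c ∈ S, c ≤ C * n ^ 64 ∧
      (Good a d 3 c ∧ Pos a 1 c)) ∧ cc / 12 * n ^ 64 / Real.log n ^ 3 ≤ #S := by
    filter_upwards [hpairs, eventually_ge_atTop (a.natAbs + d + 3)] with n hn hnl
    obtain ⟨𝒬, hcard, h𝒬⟩ := hn
    set S : Finset ℕ := (Icc 1 (C * n ^ 64)).filter (fun c => Good a d 3 c ∧ Pos a 1 c) with hS
    refine ⟨S, ?_, ?_⟩
    · intro c hc
      rw [hS, mem_filter, mem_Icc] at hc
      exact ⟨hc.1.2, hc.2⟩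
    · have h1 : #𝒬 ≤ 3 * 4 * #S := by
        apply Kloo.count_transfer 𝒬 S 1 4 one_pos
        · intro c hc
          rw [hS, mem_filter] at hc
          exact hc.2.1.2.2.1.trans (by norm_num)
        · intro c hc
          rw [hS, mem_filter, mem_Icc] at hc
          omega
        · intro x hx
          have h2 := h𝒬 x hx
          obtain ⟨g1, g2, g3, g4, g5, g6, g7, g8, g9⟩ := hstruct n (by omega) (by omega) x h2
          obtain ⟨hp, hq, hpn, hpq, hqn, hpb, hqb, -⟩ := h2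
          refine ⟨hp, hq, hpq, ?_⟩
          have : NeZero x.1 := ⟨hp.ne_zero⟩
          have : NeZero x.2 := ⟨hq.ne_zero⟩
          have : NeZero (x.2 - x.1) := ⟨g9.ne'⟩
          have hcopBC : (x.2 - x.1).Coprime x.2 := by
            nth_rewrite 2 [← g4]; simpa using g5.symm
          have hcopCA : x.2.Coprime x.1 := by
            nth_rewrite 1 [← g4]; rw [add_comm]; simpa using g5.symm
          have hmem : ∀ u v : ℕ, 0 < u → 0 < v → u ≤ 16 * n ^ 32 → v ≤ 16 * n ^ 32 →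
              Adm d 3 (2 * n ^ 32) (u * v) → Pos a 1 (u * v) → 1 * (u * v) ∈ S := by
            intro u v hu0 hv0 hu hv hadm hpos
            rw [one_mul, hS, mem_filter, mem_Icc]
            have := hsize1 n u v hu hv
            exact ⟨⟨Nat.mul_pos hu0 hv0, this⟩,
              good_of_adm ha hda (by omega) (by omega) hadm this, hpos⟩
          rcases Kloo.triple_pos a x.1 (x.2 - x.1) x.2 g4 g5 g1.1 g3.1 g2.1 with h | h | h
          · left
            exact hmem _ _ hp.pos g9 (by omega) (by omega)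
              (adm_mono (by norm_num) (adm_mul g1 g3 g5)) (pos_of_re a _ h)
          · right; left
            exact hmem _ _ g9 hq.pos (by omega) (by omega)
              (adm_mono (by norm_num) (adm_mul g3 g2 hcopBC)) (pos_of_re a _ h)
          · right; right
            exact hmem _ _ hq.pos hp.pos (by omega) (by omega)
              (adm_mono (by norm_num) (adm_mul g2 g1 hcopCA)) (pos_of_re a _ h)
      have h2 : (#𝒬 : ℝ) ≤ 12 * #S := by
        have : ((#𝒬 : ℕ) : ℝ) ≤ ((3 * 4 * #S : ℕ) : ℝ) := by exact_mod_cast h1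
        push_cast at this
        linarith
      have h3 := hcard.trans h2
      have h4 : cc / 12 * (n : ℝ) ^ 64 / Real.log n ^ 3 =
        (cc * (n : ℝ) ^ 64 / Real.log n ^ 3) / 12 := by ring
      rw [h4]; linarith
  -- negative values
  have hN : ∀ᶠ n : ℕ in atTop, ∃ S : Finset ℕ, (∀ c ∈ S, c ≤ C * n ^ 64 ∧
      (Good a d 4 c ∧ Neg a 1 c)) ∧ cc / 12 * n ^ 64 / Real.log n ^ 3 ≤ #S := by
    filter_upwards [hpairs, eventually_ge_atTop (a.natAbs + d + 3)] with n hn hnl
    obtain ⟨𝒬, hcard, h𝒬⟩ := hn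
    set S : Finset ℕ := (Icc 1 (C * n ^ 64)).filter (fun c => Good a d 4 c ∧ Neg a 1 c) with hS
    refine ⟨S, ?_, ?_⟩
    · intro c hc
      rw [hS, mem_filter, mem_Icc] at hc
      exact ⟨hc.1.2, hc.2⟩
    · have h1 : #𝒬 ≤ 3 * 4 * #S := by
        apply Kloo.count_transfer 𝒬 S d 4 hdp.pos
        · intro c hc
          rw [hS, mem_filter] at hc
          exact hc.2.1.2.2.1
        · intro c hc
          rw [hS, mem_filter, mem_Icc] at hc
          omega
        · intro x hx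
          have h2 := h𝒬 x hx
          obtain ⟨g1, g2, g3, g4, g5, g6, g7, g8, g9⟩ := hstruct n (by omega) (by omega) x h2
          obtain ⟨hp, hq, hpn, hpq, hqn, hpb, hqb, -⟩ := h2
          refine ⟨hp, hq, hpq, ?_⟩
          have : NeZero x.1 := ⟨hp.ne_zero⟩
          have : NeZero x.2 := ⟨hq.ne_zero⟩
          have : NeZero (x.2 - x.1) := ⟨g9.ne'⟩
          have hcopBC : (x.2 - x.1).Coprime x.2 := by
            nth_rewrite 2 [← g4]; simpa using g5.symm
          have hcopCA : x.2.Coprime x.1 := by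
            nth_rewrite 1 [← g4]; rw [add_comm]; simpa using g5.symm
          have hAt : ((x.1 : ℕ) : ZMod d) = t := by
            rw [(ZMod.natCast_eq_natCast_iff _ _ _).2 hpb, hbt]
          have hCt : ((x.2 : ℕ) : ZMod d) = 2 * t := by
            rw [(ZMod.natCast_eq_natCast_iff _ _ _).2 hqb]; push_cast; rw [hbt]
          have hBt : ((x.2 - x.1 : ℕ) : ZMod d) = t := by
            rw [Nat.cast_sub hpq.le, hAt, hCt]; ring
          have hmem : ∀ u v : ℕ, 0 < u → 0 < v → u ≤ 16 * n ^ 32 → v ≤ 16 * n ^ 32 →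
              Adm d 3 (2 * n ^ 32) (u * v) → d.Coprime (u * v) → Neg a 1 (d * (u * v)) →
              d * (u * v) ∈ S := by
            intro u v hu0 hv0 hu hv hadm hcop hneg
            rw [hS, mem_filter, mem_Icc]
            have := hsize n u v hu hv
            refine ⟨⟨Nat.mul_pos hdp.pos (Nat.mul_pos hu0 hv0), this⟩,
              good_of_adm ha hda (by omega) (by omega)
                (adm_mono (by norm_num) (adm_mul (adm_prime hdp (Or.inl rfl)) hadm hcop)) this, hneg⟩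
          rcases Kloo.triple_neg a d x.1 (x.2 - x.1) x.2 g4 g5 g1.1 g3.1 g2.1 g6 g7 g8 t ht hAt hBt
            with h | h | h
          · left
            exact hmem _ _ hp.pos g9 (by omega) (by omega)
              (adm_mono (by norm_num) (adm_mul g1 g3 g5)) (g6.mul_right g7) (neg_of_re a _ h)
          · right; left
            exact hmem _ _ g9 hq.pos (by omega) (by omega)
              (adm_mono (by norm_num) (adm_mul g3 g2 hcopBC)) (g7.mul_right g8) (neg_of_re a _ h)
          · right; right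
            exact hmem _ _ hq.pos hp.pos (by omega) (by omega)
              (adm_mono (by norm_num) (adm_mul g2 g1 hcopCA)) (g8.mul_right g6) (neg_of_re a _ h)
      have h2 : (#𝒬 : ℝ) ≤ 12 * #S := by
        have : ((#𝒬 : ℕ) : ℝ) ≤ ((3 * 4 * #S : ℕ) : ℝ) := by exact_mod_cast h1
        push_cast at this
        linarith
      have h3 := hcard.trans h2
      have h4 : cc / 12 * (n : ℝ) ^ 64 / Real.log n ^ 3 =
        (cc * (n : ℝ) ^ 64 / Real.log n ^ 3) / 12 := by ring
      rw [h4]; linarith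
  obtain ⟨δ1, hδ1, h1⟩ := Kloo.real_transfer _ C 3 hCpos (cc / 12) (by positivity) hP
  obtain ⟨δ2, hδ2, h2⟩ := Kloo.real_transfer _ C 3 hCpos (cc / 12) (by positivity) hN
  refine ⟨d, min δ1 δ2, hdp, hda, lt_min hδ1 hδ2, ?_⟩
  filter_upwards [h1, h2, eventually_gt_atTop 1] with X h3 h4 hX
  have hlog : 0 < Real.log X := Real.log_pos hX
  have hX0 : 0 < X := by linarith
  constructor
  · refine le_trans ?_ h3
    gcongr
    exact min_le_left _ _
  · refine le_trans ?_ h4
    gcongr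
    exact min_le_right _ _

end Pool.Agent.Old6ea630.SignChanges1
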